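import Pool.Agent.Y315.OP.Stm

set_option autoImplicit false

open MeasureTheory Filter Topology
open scoped ContDiff ENNReal

namespace Pool.Agent.Y431.OP

open Pool.Agent.Y315.OP

/-- quadratic form -/
def qf {k : ℕ} (M : Fin k → Fin k → ℝ) (c : Fin k → ℝ) : ℝ := ∑ i, ∑ j, c i * c j * M i j

theorem qf_add {k : ℕ} (M N : Fin k → Fin k → ℝ) (c : Fin k → ℝ) :
    qf (M + N) c = qf M c + qf N c := by
  simp only [qf, Pi.add_apply, mul_add, Finset.sum_add_distrib]

theorem qf_smul {k : ℕ} (t : ℝ) (M : Fin k → Fin k → ℝ) (c : Fin k → ℝ) :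
    qf (t • M) c = t * qf M c := by
  simp only [qf, Pi.smul_apply, smul_eq_mul, Finset.mul_sum]
  refine Finset.sum_congr rfl fun i _ => Finset.sum_congr rfl fun j _ => by ring

theorem qf_smul_vec {k : ℕ} (t : ℝ) (M : Fin k → Fin k → ℝ) (c : Fin k → ℝ) :
    qf M (t • c) = t ^ 2 * qf M c := by
  simp only [qf, Pi.smul_apply, smul_eq_mul, Finset.mul_sum]
  refine Finset.sum_congr rfl fun i _ => Finset.sum_congr rfl fun j _ => by ring

/-- the unit matrix -/
def one (k : ℕ) : Fin k → Fin k → ℝ := fun i j => if i = j then 1 else 0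

theorem qf_one {k : ℕ} (c : Fin k → ℝ) : qf (one k) c = ∑ i, c i ^ 2 := by
  simp only [qf, one, mul_ite, mul_one, mul_zero, Finset.sum_ite_eq, Finset.mem_univ, if_true]
  exact Finset.sum_congr rfl fun i _ => by ring

/-- matrix units -/
def eu {k : ℕ} (i j : Fin k) : Fin k → Fin k → ℝ := Pi.single i (Pi.single j 1)

theorem eu_apply {k : ℕ} (i j a b : Fin k) : eu i j a b = if a = i ∧ b = j then 1 else 0 := by
  unfold eu
  by_cases h1 : a = i
  · subst h1
    by_cases h2 : b = j
    · subst h2; simp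
    · simp [h2, Pi.single_apply]
  · simp [h1, Pi.single_apply]

theorem decomp {k : ℕ} (M : Fin k → Fin k → ℝ) : M = ∑ i, ∑ j, M i j • eu i j := by
  funext a b
  simp only [Finset.sum_apply, Pi.smul_apply, smul_eq_mul, eu_apply]
  rw [Finset.sum_eq_single a]
  · rw [Finset.sum_eq_single b]
    · simp
    · intro j _ hj
      simp [Ne.symm hj]
    · simp
  · intro i _ hi
    exact Finset.sum_eq_zero fun j _ => by simp [Ne.symm hi]
  · simp

theorem f_decomp {k : ℕ} (f : StrongDual ℝ (Fin k → Fin k → ℝ)) (M : Fin k → Fin k → ℝ) :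
    f M = ∑ i, ∑ j, M i j * f (eu i j) := by
  conv_lhs => rw [decomp M]
  simp only [map_sum, map_smul, smul_eq_mul]

/-- forms positive on the vectors supported in `J` -/
def PP {k : ℕ} (J : Fin k → Prop) : Set (Fin k → Fin k → ℝ) :=
  {M | ∀ c : Fin k → ℝ, c ≠ 0 → (∀ i, ¬ J i → c i = 0) → 0 < qf M c}

theorem PP_convex {k : ℕ} (J : Fin k → Prop) : Convex ℝ (PP J) := by
  intro M hM N hN a b ha hb hab c hc hs
  rw [qf_add, qf_smul, qf_smul]
  have h1 := hM c hc hs
  have h2 := hN c hc hs
  rcases ha.lt_or_eq with h | h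
  · have := mul_pos h h1
    have := mul_nonneg hb h2.le
    linarith
  · have hb1 : b = 1 := by linarith
    rw [← h, hb1]; linarith

theorem qf_cont {k : ℕ} : Continuous fun z : (Fin k → Fin k → ℝ) × (Fin k → ℝ) => qf z.1 z.2 := by
  unfold qf
  fun_prop

theorem PP_open {k : ℕ} (J : Fin k → Prop) : IsOpen (PP J) := by
  rw [isOpen_iff_mem_nhds]
  intro M hM
  have hK : IsCompact {c : Fin k → ℝ | c ∈ Metric.sphere 0 1 ∧ ∀ i, ¬ J i → c i = 0} := by
    have hcl : IsClosed {c : Fin k → ℝ | ∀ i, ¬ J i → c i = 0} := by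
      have he : {c : Fin k → ℝ | ∀ i, ¬ J i → c i = 0} =
          ⋂ i, ⋂ (_ : ¬ J i), {c : Fin k → ℝ | c i = 0} := by
        ext c; simp
      rw [he]
      refine isClosed_iInter fun i => isClosed_iInter fun _ => ?_
      exact isClosed_eq (continuous_apply i) continuous_const
    exact (isCompact_sphere (0 : Fin k → ℝ) 1).inter_right hcl
  have h := hK.eventually_forall_of_forall_eventually (x₀ := M)
    (P := fun N c => 0 < qf N c) (fun c hc => by
      apply (qf_cont.tendsto (M, c)).eventually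
      apply lt_mem_nhds
      refine hM c ?_ hc.2
      rintro rfl
      have := hc.1
      simp at this)
  filter_upwards [h] with N hN c hc hs
  have hc0 : 0 < ‖c‖ := norm_pos_iff.mpr hc
  have := hN (‖c‖⁻¹ • c) ⟨by simp [norm_smul, hc0.ne'], fun i hi => by simp [hs i hi]⟩
  rw [qf_smul_vec] at this
  exact pos_of_mul_pos_right this (by positivity)

theorem one_mem {k : ℕ} (J : Fin k → Prop) : one k ∈ PP J := by
  intro c hc _
  rw [qf_one]
  obtain ⟨i, hi⟩ := Function.ne_iff.mp hc
  exact Finset.sum_pos' (fun i _ => sq_nonneg _) ⟨i, Finset.mem_univ _, by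
    have : c i ≠ 0 := hi
    positivity⟩

theorem nonpos_of_small (a b : ℝ) (h : ∀ ε > 0, a + ε * b ≤ 0) : a ≤ 0 := by
  by_contra hcon
  push Not at hcon
  have h1 := h (a / (2 * (|b| + 1))) (by positivity)
  have h2 : a / (2 * (|b| + 1)) * b ≥ - (a / 2) := by
    have h3 : a / (2 * (|b| + 1)) * |b| ≤ a / 2 := by
      rw [div_mul_eq_mul_div, div_le_div_iff₀ (by positivity) (by norm_num)]
      nlinarith [abs_nonneg b]
    have h4 : a / (2 * (|b| + 1)) * b ≥ - (a / (2 * (|b| + 1)) * |b|) := by
      have : -|b| ≤ b := neg_abs_le b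
      have h5 : 0 ≤ a / (2 * (|b| + 1)) := by positivity
      nlinarith
    linarith
  linarith

theorem nonpos_of_large (a b : ℝ) (h : ∀ t > 0, a + t * b ≤ 0) : b ≤ 0 := by
  by_contra hcon
  push Not at hcon
  have h1 := h ((|a| + 1) / b) (by positivity)
  rw [div_mul_cancel₀ _ hcon.ne'] at h1
  have := neg_abs_le a
  linarith

open scoped MatrixOrder in
theorem exists_B {k : ℕ} (J : Fin k → Prop) (C : Set (Fin k → Fin k → ℝ)) (hC : Convex ℝ C)
    (hne : C.Nonempty) (hsym : ∀ M ∈ C, ∀ i j, M i j = M j i)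
    (hdis : ∀ M ∈ C, ∃ c : Fin k → ℝ, c ≠ 0 ∧ (∀ i, ¬ J i → c i = 0) ∧ qf M c ≤ 0) :
    ∃ B : Fin k → Fin k → ℝ, (∀ l i, ¬ J i → B l i = 0) ∧ 0 < ∑ l, ∑ i, B l i ^ 2 ∧
      ∀ M ∈ C, ∑ l, qf M (B l) ≤ 0 := by
  classical
  obtain ⟨f, r, hf, hr⟩ := geometric_hahn_banach_open (PP_convex J) (PP_open J) hC (by
    rw [Set.disjoint_left]
    intro M hM hMC
    obtain ⟨c, hc, hs, hq⟩ := hdis M hMC
    exact absurd (hM c hc hs) (not_lt.mpr hq))
  have hcone : ∀ M ∈ PP J, ∀ t : ℝ, 0 < t → t • M ∈ PP J := by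
    intro M hM t ht c hc hs
    rw [qf_smul]
    exact mul_pos ht (hM c hc hs)
  have hfneg : ∀ M ∈ PP J, f M ≤ 0 := by
    intro M hM
    apply nonpos_of_large (-r)
    intro t ht
    have := hf _ (hcone M hM t ht)
    rw [map_smul, smul_eq_mul] at this
    linarith
  have hr0 : 0 ≤ r := by
    have : -r ≤ 0 := by
      apply nonpos_of_small _ (f (one k))
      intro t ht
      have := hf _ (hcone _ (one_mem J) t ht)
      rw [map_smul, smul_eq_mul] at this
      linarith
    linarith
  have hone : f (one k) < 0 := by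
    by_contra hcon
    push Not at hcon
    have h0 : f (one k) = 0 := le_antisymm (hfneg _ (one_mem J)) hcon
    obtain ⟨M0, hM0⟩ := hne
    have h1 : 0 < f M0 := by
      have h2 := hf _ (one_mem J)
      have h3 := hr _ hM0
      linarith
    have h4 : ∀ᶠ t : ℝ in 𝓝 0, one k + t • M0 ∈ PP J := by
      have hc : Continuous fun t : ℝ => one k + t • M0 := by fun_prop
      apply (hc.tendsto 0).eventually
      simp only [zero_smul, add_zero]
      exact (PP_open J).mem_nhds (one_mem J)
    have h5 := (h4.filter_mono nhdsWithin_le_nhds : ∀ᶠ t : ℝ in 𝓝[>] 0, one k + t • M0 ∈ PP J)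
    obtain ⟨t, ht1, ht2⟩ := (h5.and self_mem_nhdsWithin).exists
    have h6 := hfneg _ ht1
    rw [map_add, map_smul, smul_eq_mul, h0, zero_add] at h6
    have ht3 : (0 : ℝ) < t := ht2
    have := mul_pos ht3 h1
    linarith
  -- the matrix
  let A : Matrix (Fin k) (Fin k) ℝ := fun i j => -(f (eu i j) + f (eu j i)) / 2
  have hA_sum : ∀ M : Fin k → Fin k → ℝ, (∀ i j, M i j = M j i) →
      ∑ i, ∑ j, M i j * A i j = - f M := by
    intro M hM
    have e1 : ∑ i, ∑ j, M i j * f (eu j i) = f M := by
      rw [Finset.sum_comm, f_decomp f M]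
      refine Finset.sum_congr rfl fun i _ => Finset.sum_congr rfl fun j _ => ?_
      rw [hM j i]
    have e2 := f_decomp f M
    have e3 : ∑ i, ∑ j, M i j * A i j =
        -(1/2) * (∑ i, ∑ j, M i j * f (eu i j)) - (1/2) * ∑ i, ∑ j, M i j * f (eu j i) := by
      simp only [Finset.mul_sum]
      rw [← Finset.sum_sub_distrib]
      refine Finset.sum_congr rfl fun i _ => ?_
      rw [← Finset.sum_sub_distrib]
      refine Finset.sum_congr rfl fun j _ => ?_
      simp only [A]; ring
    rw [e3, e1, ← e2]; ring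
  have htens : ∀ c : Fin k → ℝ, f (fun i j => c i * c j) ≤ 0 := by
    intro c
    apply nonpos_of_small _ (f (one k))
    intro ε hε
    have hmem : (fun i j => c i * c j) + ε • one k ∈ PP J := by
      intro v hv hs
      rw [qf_add, qf_smul]
      have h1 : 0 ≤ qf (fun i j => c i * c j) v := by
        have : qf (fun i j => c i * c j) v = (∑ i, v i * c i) ^ 2 := by
          rw [_root_.sq, Finset.sum_mul_sum]
          simp only [qf]
          refine Finset.sum_congr rfl fun i _ => Finset.sum_congr rfl fun j _ => by ring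
        rw [this]; positivity
      have h2 := one_mem J v hv hs
      have := mul_pos hε h2
      linarith
    have := hfneg _ hmem
    rwa [map_add, map_smul, smul_eq_mul] at this
  have hApsd : A.PosSemidef := by
    apply Matrix.PosSemidef.of_dotProduct_mulVec_nonneg
    · ext i j
      show A j i = A i j
      simp only [A]; ring
    · intro c
      have h1 := hA_sum (fun i j => c i * c j) (fun i j => by ring)
      have h2 : star c ⬝ᵥ (A.mulVec c) = ∑ i, ∑ j, (c i * c j) * A i j := by
        simp only [dotProduct, Matrix.mulVec, star_trivial, Finset.mul_sum]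
        refine Finset.sum_congr rfl fun i _ => Finset.sum_congr rfl fun j _ => by ring
      rw [h2, h1]
      have := htens c
      linarith
  obtain ⟨B, hB⟩ := CStarAlgebra.nonneg_iff_eq_star_mul_self.mp hApsd.nonneg
  have hAij : ∀ i j, A i j = ∑ l, B l i * B l j := by
    intro i j
    rw [hB, Matrix.mul_apply]
    simp [Matrix.star_eq_conjTranspose]
  refine ⟨B, ?_, ?_, ?_⟩
  · intro l i hi
    have h0 : 0 ≤ f (eu i i) := by
      have h1 : - f (eu i i) ≤ 0 := by
        apply nonpos_of_large (f (one k))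
        intro t ht
        have hmem : one k + t • (-(eu i i)) ∈ PP J := by
          intro v hv hs
          rw [qf_add, qf_smul]
          have h1 : qf (-(eu i i)) v = 0 := by
            simp only [qf]
            refine Finset.sum_eq_zero fun a _ => Finset.sum_eq_zero fun b _ => ?_
            simp only [Pi.neg_apply, eu_apply]
            by_cases h : a = i ∧ b = i
            · rw [h.1, hs i hi]; ring
            · simp [h]
          rw [h1]
          have := one_mem J v hv hs
          linarith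
        have := hfneg _ hmem
        rw [map_add, map_smul, map_neg, smul_eq_mul] at this
        linarith
      linarith
    have h2 : f (eu i i) ≤ 0 := by
      have := htens (Pi.single i 1)
      have he : (fun a b => (Pi.single i 1 : Fin k → ℝ) a * (Pi.single i 1 : Fin k → ℝ) b) = eu i i := by
        funext a b
        rw [eu_apply]
        by_cases h1 : a = i <;> by_cases h2 : b = i <;> simp [h1, h2, Pi.single_apply]
      rwa [he] at this
    have h3 : A i i = 0 := by simp only [A]; linarith
    rw [hAij] at h3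
    have h4 := (Finset.sum_eq_zero_iff_of_nonneg (fun l _ => mul_self_nonneg (B l i))).mp h3 l
      (Finset.mem_univ l)
    exact mul_self_eq_zero.mp h4
  · have h1 : ∑ l, ∑ i, B l i ^ 2 = - f (one k) := by
      rw [← hA_sum (one k) (fun i j => by simp [one, eq_comm]), Finset.sum_comm]
      refine Finset.sum_congr rfl fun i _ => ?_
      simp only [one, ite_mul, one_mul, zero_mul, Finset.sum_ite_eq, Finset.mem_univ, if_true]
      rw [hAij]
      exact Finset.sum_congr rfl fun l _ => by ring
    rw [h1]; linarith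
  · intro M hM
    have h1 : ∑ l, qf M (B l) = - f M := by
      rw [← hA_sum M (hsym M hM)]
      simp only [qf]
      rw [Finset.sum_comm]
      refine Finset.sum_congr rfl fun i _ => ?_
      rw [Finset.sum_comm]
      refine Finset.sum_congr rfl fun j _ => ?_
      rw [hAij, Finset.mul_sum]
      exact Finset.sum_congr rfl fun l _ => by ring
    rw [h1]
    have := hr M hM
    linarith


/-! ## Measure theory -/

theorem memLp_sqrt {d : ℕ} {V : E d → ℝ≥0∞} (hV : Measurable V) {u : E d → ℝ} (hu : MemLp u 2)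
    (hu2 : ∫⁻ x, V x * ‖u x‖ₑ ^ 2 < ⊤) : MemLp (fun x => √(V x).toReal * u x) 2 := by
  have hm : AEStronglyMeasurable (fun x => √(V x).toReal * u x) volume :=
    (hV.ennreal_toReal.sqrt.aestronglyMeasurable).mul hu.1
  rw [memLp_two_iff_integrable_sq hm]
  refine ⟨hm.pow 2, ?_⟩
  refine lt_of_le_of_lt (lintegral_mono fun x => ?_) hu2
  show ‖(√(V x).toReal * u x) ^ 2‖ₑ ≤ _
  rw [mul_pow, Real.sq_sqrt ENNReal.toReal_nonneg, enorm_mul, enorm_pow]
  gcongr
  rw [Real.enorm_eq_ofReal ENNReal.toReal_nonneg]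
  exact ENNReal.ofReal_toReal_le

theorem intV {d : ℕ} {V : E d → ℝ≥0∞} (hV : Measurable V) {u v : E d → ℝ} (hu : MemLp u 2)
    (hv : MemLp v 2) (hu2 : ∫⁻ x, V x * ‖u x‖ₑ ^ 2 < ⊤) (hv2 : ∫⁻ x, V x * ‖v x‖ₑ ^ 2 < ⊤) :
    Integrable (fun x => (V x).toReal * (u x * v x)) := by
  have h := (memLp_sqrt hV hu hu2).integrable_mul (memLp_sqrt hV hv hv2)
  refine h.congr (Filter.Eventually.of_forall fun x => ?_)
  have : √(V x).toReal * √(V x).toReal = (V x).toReal := Real.mul_self_sqrt ENNReal.toReal_nonneg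
  show √(V x).toReal * u x * (√(V x).toReal * v x) = _
  linear_combination (u x * v x) * this

/-- admissible perturbations -/
def Adm {d : ℕ} (p : ℝ) (V : E d → ℝ≥0∞) (φ : E d → ℝ) : Prop :=
  Measurable φ ∧ (∀ x, 0 ≤ φ x) ∧ (∃ M, ∀ x, φ x ≤ M) ∧
    ∫⁻ x, ENNReal.ofReal (φ x) * (V x) ^ (-p) ≤ 1

/-- the matrix of the form -/
noncomputable def MM {d k : ℕ} (V : E d → ℝ≥0∞) (u : Fin k → E d → ℝ) (φ : E d → ℝ) :
    Fin k → Fin k → ℝ :=
  fun i j => ∫ x, (V x).toReal * ((φ x - 1) * (u i x * u j x))

theorem intAdm {d : ℕ} {p : ℝ} {V : E d → ℝ≥0∞} {h : E d → ℝ}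
    (hh : Integrable (fun x => (V x).toReal * h x)) {φ : E d → ℝ} (hφ : Adm p V φ) :
    Integrable (fun x => (V x).toReal * ((φ x - 1) * h x)) := by
  obtain ⟨h1, h2, ⟨M, hM⟩, _⟩ := hφ
  have h3 := hh.bdd_mul (c := M + 1) (f := fun x => φ x - 1) (h1.sub_const 1).aestronglyMeasurable
    (Filter.Eventually.of_forall fun x => by
      rw [Real.norm_eq_abs, abs_le]
      have := h2 x
      have := hM x
      constructor <;> linarith)
  refine h3.congr (Filter.Eventually.of_forall fun x => ?_)
  show (φ x - 1) * ((V x).toReal * h x) = _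
  ring

theorem lc_sq {d k : ℕ} (c : Fin k → ℝ) (u : Fin k → E d → ℝ) (x : E d) :
    lc c u x ^ 2 = ∑ i, ∑ j, (c i * c j) * (u i x * u j x) := by
  rw [lc, _root_.sq, Finset.sum_mul_sum]
  refine Finset.sum_congr rfl fun i _ => Finset.sum_congr rfl fun j _ => by ring

theorem qf_MM {d k : ℕ} {p : ℝ} {V : E d → ℝ≥0∞} {u : Fin k → E d → ℝ}
    (hi : ∀ i j, Integrable (fun x => (V x).toReal * (u i x * u j x)))
    {φ : E d → ℝ} (hφ : Adm p V φ) (c : Fin k → ℝ) :
    qf (MM V u φ) c = ∫ x, (V x).toReal * ((φ x - 1) * lc c u x ^ 2) := by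
  have e : ∀ x, (V x).toReal * ((φ x - 1) * lc c u x ^ 2) =
      ∑ i, ∑ j, (c i * c j) * ((V x).toReal * ((φ x - 1) * (u i x * u j x))) := by
    intro x
    rw [lc_sq]
    simp only [Finset.mul_sum]
    refine Finset.sum_congr rfl fun i _ => Finset.sum_congr rfl fun j _ => by ring
  simp only [e]
  rw [integral_finsetSum _ fun i _ => integrable_finsetSum _ fun j _ =>
    (intAdm (hi i j) hφ).const_mul _]
  simp only [qf]
  refine Finset.sum_congr rfl fun i _ => ?_
  rw [integral_finsetSum _ fun j _ => (intAdm (hi i j) hφ).const_mul _]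
  refine Finset.sum_congr rfl fun j _ => ?_
  rw [integral_const_mul]
  rfl

theorem MM_convex {d k : ℕ} {p : ℝ} {V : E d → ℝ≥0∞} (hV : Measurable V) {u : Fin k → E d → ℝ}
    (hi : ∀ i j, Integrable (fun x => (V x).toReal * (u i x * u j x))) :
    Convex ℝ (MM V u '' {φ | Adm p V φ}) := by
  rintro _ ⟨φ, hφ, rfl⟩ _ ⟨ψ, hψ, rfl⟩ a b ha hb hab
  refine ⟨fun x => a * φ x + b * ψ x, ?_, ?_⟩
  · obtain ⟨h1, h2, ⟨M, hM⟩, h3⟩ := hφ
    obtain ⟨g1, g2, ⟨N, hN⟩, g3⟩ := hψ
    refine ⟨(h1.const_mul a).add (g1.const_mul b), fun x => ?_, ⟨a * M + b * N, fun x => ?_⟩, ?_⟩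
    · exact add_nonneg (mul_nonneg ha (h2 x)) (mul_nonneg hb (g2 x))
    · exact add_le_add (mul_le_mul_of_nonneg_left (hM x) ha) (mul_le_mul_of_nonneg_left (hN x) hb)
    · have e : ∀ x, ENNReal.ofReal (a * φ x + b * ψ x) * (V x) ^ (-p) =
          ENNReal.ofReal a * (ENNReal.ofReal (φ x) * (V x) ^ (-p)) +
          ENNReal.ofReal b * (ENNReal.ofReal (ψ x) * (V x) ^ (-p)) := by
        intro x
        rw [ENNReal.ofReal_add (mul_nonneg ha (h2 x)) (mul_nonneg hb (g2 x)),
          ENNReal.ofReal_mul ha, ENNReal.ofReal_mul hb]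
        ring
      simp only [e]
      have m1 : Measurable fun x => ENNReal.ofReal (φ x) * (V x) ^ (-p) :=
        (h1.ennreal_ofReal).mul (hV.pow_const _)
      have m2 : Measurable fun x => ENNReal.ofReal (ψ x) * (V x) ^ (-p) :=
        (g1.ennreal_ofReal).mul (hV.pow_const _)
      rw [lintegral_add_left (m1.const_mul _), lintegral_const_mul _ m1, lintegral_const_mul _ m2]
      calc _ ≤ ENNReal.ofReal a * 1 + ENNReal.ofReal b * 1 := by gcongr
        _ = 1 := by
          rw [mul_one, mul_one, ← ENNReal.ofReal_add ha hb, hab, ENNReal.ofReal_one]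
  · funext i j
    simp only [MM, Pi.add_apply, Pi.smul_apply, smul_eq_mul]
    rw [← integral_const_mul, ← integral_const_mul,
      ← integral_add ((intAdm (hi i j) hφ).const_mul _) ((intAdm (hi i j) hψ).const_mul _)]
    refine integral_congr_ae (Filter.Eventually.of_forall fun x => ?_)
    show (V x).toReal * ((a * φ x + b * ψ x - 1) * (u i x * u j x)) = _
    have : (1 : ℝ) = a + b := hab.symm
    linear_combination (-(V x).toReal * (u i x * u j x)) * this

theorem sep : S_SEP := by
  intro d p k V L hd hp hV hmass u g ν hE hyp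
  have hi : ∀ i j, Integrable (fun x => (V x).toReal * (u i x * u j x)) := fun i j =>
    intV hV (hE.inH i).mu (hE.inH j).mu (hE.inH i).fin (hE.inH j).fin
  have hadm0 : Adm p V (fun _ => 0) :=
    ⟨measurable_const, fun _ => le_refl _, ⟨0, fun _ => le_refl _⟩, by simp⟩
  obtain ⟨B, hB1, hB2, hB3⟩ := exists_B (fun i => ν i = L) (MM V u '' {φ | Adm p V φ})
    (MM_convex hV hi) ⟨_, _, hadm0, rfl⟩ (by
      rintro _ ⟨φ, _, rfl⟩ i j
      simp only [MM, mul_comm (u i _) (u j _)]) (by
      rintro _ ⟨φ, hφ, rfl⟩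
      have hφ' := hφ
      obtain ⟨h1, h2, ⟨M, hM⟩, h3⟩ := hφ
      obtain ⟨c, hc, hs, hle⟩ := hyp φ M h1 h2 hM h3
      exact ⟨c, hc, hs, by rw [qf_MM hi hφ']; exact hle⟩)
  set ρ : E d → ℝ := fun x => ∑ l, lc (B l) u x ^ 2 with hρ
  have hρ0 : ∀ x, 0 ≤ ρ x := fun x => Finset.sum_nonneg fun l _ => sq_nonneg _
  have hVρ : Integrable (fun x => (V x).toReal * ρ x) := by
    have e : (fun x => (V x).toReal * ρ x) = fun x =>
        ∑ l, ∑ i, ∑ j, (B l i * B l j) * ((V x).toReal * (u i x * u j x)) := by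
      funext x
      simp only [hρ, lc_sq, Finset.mul_sum]
      refine Finset.sum_congr rfl fun l _ => Finset.sum_congr rfl fun i _ =>
        Finset.sum_congr rfl fun j _ => by ring
    rw [e]
    exact integrable_finsetSum _ fun l _ => integrable_finsetSum _ fun i _ =>
      integrable_finsetSum _ fun j _ => (hi i j).const_mul _
  -- the integral of ρ
  have huu : ∀ i j, Integrable (fun x => u i x * u j x) := fun i j =>
    (hE.inH i).mu.integrable_mul (hE.inH j).mu
  have hρint : ∫ x, ρ x = ∑ l, ∑ i, B l i ^ 2 := by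
    have e : ∀ x, ρ x = ∑ l, ∑ i, ∑ j, (B l i * B l j) * (u i x * u j x) := by
      intro x
      simp only [hρ, lc_sq]
    simp only [e]
    rw [integral_finsetSum _ fun l _ => integrable_finsetSum _ fun i _ =>
      integrable_finsetSum _ fun j _ => (huu i j).const_mul _]
    refine Finset.sum_congr rfl fun l _ => ?_
    rw [integral_finsetSum _ fun i _ => integrable_finsetSum _ fun j _ => (huu i j).const_mul _]
    refine Finset.sum_congr rfl fun i _ => ?_
    rw [integral_finsetSum _ fun j _ => (huu i j).const_mul _]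
    simp only [integral_const_mul, hE.orth, mul_ite, mul_one, mul_zero, Finset.sum_ite_eq,
      Finset.mem_univ, if_true]
    ring
  -- almost everywhere facts
  have hmeas : Measurable fun x => (V x) ^ (-p) := hV.pow_const _
  have hmfin : ∫⁻ x, (V x) ^ (-p) ≠ ⊤ := ne_top_of_le_ne_top ENNReal.one_ne_top hmass
  have hV0 : ∀ᵐ x : E d, V x ≠ 0 := by
    filter_upwards [ae_lt_top hmeas hmfin] with x hx h0
    rw [h0, ENNReal.zero_rpow_of_neg (by linarith)] at hx
    exact lt_irrefl _ hx
  have hu0 : ∀ᵐ x : E d, V x = ⊤ → ρ x = 0 := by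
    have h1 : ∀ i, ∀ᵐ x : E d, V x * ‖u i x‖ₑ ^ 2 < ⊤ := fun i =>
      ae_lt_top' (hV.aemeasurable.mul ((hE.inH i).mu.1.enorm.pow_const 2)) (hE.inH i).fin.ne
    filter_upwards [ae_all_iff.mpr h1] with x hx hxV
    have h2 : ∀ i, u i x = 0 := by
      intro i
      by_contra hne
      have h3 := hx i
      rw [hxV, ENNReal.top_mul] at h3
      · exact lt_irrefl _ h3
      · simpa using hne
    simp only [hρ, lc, h2, mul_zero, Finset.sum_const_zero]
    simp
  set κ : ℝ := ∫ x, (V x).toReal * ρ x with hκ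
  have hκ0 : 0 < κ := by
    have h0 : 0 ≤ κ := integral_nonneg fun x => mul_nonneg ENNReal.toReal_nonneg (hρ0 x)
    rcases h0.lt_or_eq with h | h
    · exact h
    · exfalso
      have h1 := (integral_eq_zero_iff_of_nonneg
        (fun x => mul_nonneg ENNReal.toReal_nonneg (hρ0 x)) hVρ).mp h.symm
      have h2 : ρ =ᵐ[volume] 0 := by
        filter_upwards [h1, hV0, hu0] with x hx1 hx2 hx3
        by_cases hT : V x = ⊤
        · exact hx3 hT
        · have : (V x).toReal ≠ 0 := ENNReal.toReal_ne_zero.mpr ⟨hx2, hT⟩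
          exact (mul_eq_zero.mp hx1).resolve_left this
      have h3 : ∫ x, ρ x = 0 := by
        rw [integral_congr_ae h2]; simp
      rw [hρint] at h3
      exact hB2.ne' h3
  have hkey : ∀ φ : E d → ℝ, Adm p V φ → ∫ x, (V x).toReal * (φ x * ρ x) ≤ κ := by
    intro φ hφ
    have h1 := hB3 _ ⟨φ, hφ, rfl⟩
    have h2 : ∑ l, qf (MM V u φ) (B l) = ∫ x, (V x).toReal * ((φ x - 1) * ρ x) := by
      have e : ∀ x, (V x).toReal * ((φ x - 1) * ρ x) =
          ∑ l, (V x).toReal * ((φ x - 1) * lc (B l) u x ^ 2) := by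
        intro x
        simp only [hρ, Finset.mul_sum]
      simp only [e]
      rw [integral_finsetSum]
      · exact Finset.sum_congr rfl fun l _ => qf_MM hi hφ (B l)
      · intro l _
        apply intAdm _ hφ
        have e2 : (fun x => (V x).toReal * lc (B l) u x ^ 2) = fun x =>
            ∑ i, ∑ j, (B l i * B l j) * ((V x).toReal * (u i x * u j x)) := by
          funext x
          simp only [lc_sq, Finset.mul_sum]
          refine Finset.sum_congr rfl fun i _ => Finset.sum_congr rfl fun j _ => by ring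
        rw [e2]
        exact integrable_finsetSum _ fun i _ => integrable_finsetSum _ fun j _ =>
          (hi i j).const_mul _
    rw [h2] at h1
    have h3 : ∫ x, (V x).toReal * (φ x * ρ x) =
        (∫ x, (V x).toReal * ((φ x - 1) * ρ x)) + κ := by
      rw [hκ, ← integral_add (intAdm hVρ hφ) hVρ]
      exact integral_congr_ae (Filter.Eventually.of_forall fun x => by
        show (V x).toReal * (φ x * ρ x) = _
        ring)
    linarith
  -- the function f
  set f : E d → ℝ := fun x => ((V x) ^ (-p)).toReal with hf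
  have hfint : Integrable f := integrable_toReal_of_lintegral_ne_top hmeas.aemeasurable hmfin
  have hfset : ∀ s : Set (E d), ENNReal.ofReal (∫ x in s, f x) = ∫⁻ x in s, (V x) ^ (-p) := by
    intro s
    have hsfin : ∫⁻ x in s, (V x) ^ (-p) ≠ ⊤ :=
      ne_top_of_le_ne_top hmfin (setLIntegral_le_lintegral _ _)
    rw [hf, integral_toReal hmeas.aemeasurable.restrict (ae_lt_top hmeas hsfin),
      ENNReal.ofReal_toReal hsfin]
  have hle : (fun x => (V x).toReal * ρ x) ≤ᵐ[volume] fun x => κ * f x := by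
    apply ae_le_of_forall_setIntegral_le hVρ (hfint.const_mul κ)
    intro s hs _
    rw [integral_const_mul]
    have hm0 : 0 ≤ ∫ x in s, f x := integral_nonneg fun x => ENNReal.toReal_nonneg
    have hfs := hfset s
    generalize (∫ x in s, f x) = m at hfs hm0 ⊢
    rcases hm0.lt_or_eq with hm | hm
    · have hadm : Adm p V (s.indicator fun _ => 1 / m) := by
        refine ⟨measurable_const.indicator hs, fun x => ?_, ⟨1 / m, fun x => ?_⟩, ?_⟩
        · exact Set.indicator_nonneg (fun _ _ => by positivity) x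
        · exact Set.indicator_le_self' (fun _ _ => by positivity) x
        · have e : ∀ x, ENNReal.ofReal (s.indicator (fun _ => 1 / m) x) * (V x) ^ (-p)
              = s.indicator (fun x => ENNReal.ofReal (1 / m) * (V x) ^ (-p)) x := by
            intro x
            by_cases hx : x ∈ s
            · simp [hx]
            · simp [hx]
          simp only [e]
          rw [lintegral_indicator hs, lintegral_const_mul _ hmeas, ← hfs,
            ← ENNReal.ofReal_mul (by positivity), one_div, inv_mul_cancel₀ hm.ne',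
            ENNReal.ofReal_one]
      have h1 := hkey _ hadm
      have h2 : ∫ x, (V x).toReal * (s.indicator (fun _ => 1 / m) x * ρ x) =
          (1 / m) * ∫ x in s, (V x).toReal * ρ x := by
        rw [← integral_const_mul, ← integral_indicator hs]
        refine integral_congr_ae (Filter.Eventually.of_forall fun x => ?_)
        by_cases hx : x ∈ s
        · simp only [Set.indicator_of_mem hx]; ring
        · simp [Set.indicator_of_notMem hx]
      rw [h2, one_div, inv_mul_le_iff₀ hm] at h1
      linarith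
    · have h1 : ∫⁻ x in s, (V x) ^ (-p) = 0 := by rw [← hfs, ← hm, ENNReal.ofReal_zero]
      rw [← hm, mul_zero]
      have h2 := (lintegral_eq_zero_iff hmeas).mp h1
      have h3 : ∫ x in s, (V x).toReal * ρ x = 0 := by
        have : (fun x => (V x).toReal * ρ x) =ᵐ[volume.restrict s] 0 := by
          filter_upwards [h2] with x hx
          have h4 : V x = ⊤ := by
            rcases ENNReal.rpow_eq_zero_iff.mp hx with h | h
            · exfalso; linarith [h.2]
            · exact h.1
          simp [h4]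
        rw [integral_congr_ae this]; simp
      exact h3.le
  have heq : (fun x => (V x).toReal * ρ x) =ᵐ[volume] fun x => κ * f x := by
    have h1 : ∫ x, f x ≤ 1 := by
      have := hfset Set.univ
      rw [Measure.restrict_univ] at this
      have h2 : ENNReal.ofReal (∫ x, f x) ≤ 1 := this.le.trans hmass
      rwa [ENNReal.ofReal_le_one] at h2
    have h2 : ∫ x, (κ * f x - (V x).toReal * ρ x) ≤ 0 := by
      rw [integral_sub (hfint.const_mul κ) hVρ, integral_const_mul]
      nlinarith
    have h3 : 0 ≤ᵐ[volume] fun x => κ * f x - (V x).toReal * ρ x := by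
      filter_upwards [hle] with x hx
      simpa using hx
    have h4 : ∫ x, (κ * f x - (V x).toReal * ρ x) = 0 := le_antisymm h2 (integral_nonneg_of_ae h3)
    have h5 := (integral_eq_zero_iff_of_nonneg_ae h3 ((hfint.const_mul κ).sub hVρ)).mp h4
    filter_upwards [h5] with x hx
    have : κ * f x - (V x).toReal * ρ x = 0 := hx
    linarith
  refine ⟨B, κ, hκ0, hB1, ?_⟩
  filter_upwards [heq, hV0] with x hx1 hx2 hx3
  have h1 : ENNReal.ofReal ((V x).toReal * ρ x) = ENNReal.ofReal (κ * f x) := by rw [hx1]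
  rw [ENNReal.ofReal_mul ENNReal.toReal_nonneg, ENNReal.ofReal_mul hκ0.le,
    ENNReal.ofReal_toReal hx3] at h1
  rw [h1, hf]
  congr 1
  apply ENNReal.ofReal_toReal
  rw [Ne, ENNReal.rpow_eq_top_iff]
  push Not
  exact ⟨fun h => absurd h hx2, fun h => absurd h hx3⟩

end Pool.Agent.Y431.OP
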